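import Pool.Agent.Q161.ESJ.Stm1

/-!
# Twists by squares (job SCJ of project ESJ)

`x ↦ s² x`, `y ↦ s^n y` is an isomorphism over `F` of `y² = h(x)` and `y² = s^(2n) h(x/s²)`; it gives isomorphisms of the
coordinate rings over all extensions `L` of `F` which are compatible with the extension of scalars, and so the groups of
points, the cocycles, the Selmer groups and the Tate-Shafarevich groups are the same.
-/

set_option autoImplicit false

namespace Pool.Agent.Q237.ESJ

open Polynomial NumberField IsDedekindDomain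
open Pool.Agent.Q161.ESJ
open scoped nonZeroDivisors

/-! ### functoriality of the class group for injective homomorphisms of domains -/

section cm

variable {R S T : Type} [CommRing R] [IsDomain R] [CommRing S] [IsDomain S] [CommRing T] [IsDomain T]

/-- extension of ideal classes along an injective homomorphism -/
noncomputable def cm (g : R →+* S) (hg : Function.Injective g) : ClassGroup R →* ClassGroup S :=
  letI : Algebra R S := g.toAlgebra
  haveI : FaithfulSMul R S := (faithfulSMul_iff_algebraMap_injective _ _).2 hg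
  ClassGroup.extendedHom R S

lemma cm_mk (g : R →+* S) (hg : Function.Injective g) (α : (FractionalIdeal R⁰ (FractionRing R))ˣ) :
    cm g hg (QuotientGroup.mk α) = QuotientGroup.mk (Units.map (FractionalIdeal.extendedHom' (f := g)
      (FractionRing S) (nonZeroDivisors_le_comap_nonZeroDivisors_of_injective g hg)).toMonoidHom α) := rfl

lemma cm_congr {g g' : R →+* S} (h : g = g') (hg : Function.Injective g) (hg' : Function.Injective g')
    (c : ClassGroup R) : cm g hg c = cm g' hg' c := by
  subst h
  rfl

lemma cm_cm (g : R →+* S) (hg : Function.Injective g) (k : S →+* T) (hk : Function.Injective k)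
    (c : ClassGroup R) : cm k hk (cm g hg c) = cm (k.comp g) (hk.comp hg) c := by
  obtain ⟨α, rfl⟩ := QuotientGroup.mk_surjective c
  rw [cm_mk, cm_mk, cm_mk]
  congr 1
  ext1
  exact FractionalIdeal.extended_extended (FractionRing S)
    (nonZeroDivisors_le_comap_nonZeroDivisors_of_injective g hg) _
    (nonZeroDivisors_le_comap_nonZeroDivisors_of_injective k hk)

lemma cm_id (c : ClassGroup R) : cm (RingHom.id R) Function.injective_id c = c := by
  obtain ⟨α, rfl⟩ := QuotientGroup.mk_surjective c
  rw [cm_mk]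
  congr 1
  ext1
  change FractionalIdeal.extended (FractionRing R) _ (α : FractionalIdeal R⁰ (FractionRing R)) = _
  rw [← FractionalIdeal.coeToSubmodule_inj, FractionalIdeal.coe_extended_eq_span]
  have h : (IsLocalization.map (FractionRing R) (RingHom.id R)
      (nonZeroDivisors_le_comap_nonZeroDivisors_of_injective (RingHom.id R) Function.injective_id) :
        FractionRing R →+* FractionRing R) = RingHom.id _ := by
    ext1 x
    exact IsLocalization.map_id x _
  rw [h]
  simp only [RingHom.id_apply, Set.image_id']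
  exact Submodule.span_eq _

/-- a ring isomorphism gives an isomorphism of the class groups -/
noncomputable def cmE (g : R ≃+* S) : ClassGroup R ≃* ClassGroup S where
  toFun := cm g.toRingHom g.injective
  invFun := cm g.symm.toRingHom g.symm.injective
  left_inv c := by
    rw [cm_cm]
    have h : g.symm.toRingHom.comp g.toRingHom = RingHom.id R := by
      ext x
      simp
    rw [cm_congr h _ Function.injective_id, cm_id]
  right_inv c := by
    rw [cm_cm]
    have h : g.toRingHom.comp g.symm.toRingHom = RingHom.id S := by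
      ext x
      simp
    rw [cm_congr h _ Function.injective_id, cm_id]
  map_mul' := map_mul _

end cm

/-! ### isomorphic Jacobians -/

/-- isomorphisms of the groups of points over all extensions of `F`, compatible with the maps of points -/
structure JI {F : Type} [Field F] (H H' : HP F) where
  e : (L : Type) → [Field L] → [Algebra F L] → Jac H L ≃+ Jac H' L
  nat : ∀ (L M : Type) [Field L] [Algebra F L] [Field M] [Algebra F M] (φ : L →ₐ[F] M) (P : Jac H L),
    e M (pointMap H φ P) = pointMap H' φ (e L P)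

namespace JI

section field

variable {F : Type} [Field F] {H H' : HP F} (I : JI H H')

/-- the inverse -/
noncomputable def symm : JI H' H where
  e L := (I.e L).symm
  nat L M _ _ _ _ φ P := by
    rw [AddEquiv.symm_apply_eq, I.nat, AddEquiv.apply_symm_apply]

lemma act_e {K : Type} [Field K] [Algebra F K] (σ : GF K) (P : Jac H (AlgebraicClosure K)) :
    I.e _ (act H σ P) = act H' σ (I.e _ P) := I.nat _ _ _ P

/-- the isomorphism of the groups of functions -/
noncomputable def E : (GF F → Jac H (AlgebraicClosure F)) ≃+ (GF F → Jac H' (AlgebraicClosure F)) where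
  toFun f σ := I.e _ (f σ)
  invFun f σ := (I.e _).symm (f σ)
  left_inv f := by
    ext1 σ
    exact (I.e _).symm_apply_apply _
  right_inv f := by
    ext1 σ
    exact (I.e _).apply_symm_apply _
  map_add' f g := by
    ext1 σ
    exact map_add (I.e _) _ _

lemma E_apply (f : GF F → Jac H (AlgebraicClosure F)) (σ : GF F) : I.E f σ = I.e _ (f σ) := rfl

lemma E_symm : I.symm.E = I.E.symm := rfl

lemma cocycle {f : GF F → Jac H (AlgebraicClosure F)} (hf : IsCocycle H f) : IsCocycle H' (I.E f) := by
  refine ⟨hf.1.comp (I.e _), fun σ τ => ?_⟩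
  rw [E_apply, E_apply, E_apply, hf.2, map_add, act_e]

lemma coboundary {f : GF F → Jac H (AlgebraicClosure F)} (hf : IsCoboundary H f) :
    IsCoboundary H' (I.E f) := by
  obtain ⟨P, hP⟩ := hf
  exact ⟨I.e _ P, fun σ => by rw [E_apply, hP, map_sub, act_e]⟩

lemma locTriv {K : Type} [Field K] [Algebra F K] {f : GF F → Jac H (AlgebraicClosure F)}
    (hf : LocallyTrivial H K f) : LocallyTrivial H' K (I.E f) := by
  intro ι
  obtain ⟨P, hP⟩ := hf ι
  refine ⟨I.e _ P, fun τ σ h => ?_⟩
  rw [E_apply, ← I.nat, hP τ σ h, map_sub, act_e]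

/-- the isomorphism of the groups of rational points -/
noncomputable def kE (K : Type) [Field K] [Algebra F K] : JacK H K ≃+ JacK H' K where
  toFun P := ⟨I.e _ P.1, fun σ => by rw [← act_e, P.2 σ]⟩
  invFun P := ⟨(I.e _).symm P.1, fun σ => by
    have h := I.symm.act_e σ P.1
    rw [P.2 σ] at h
    exact h.symm⟩
  left_inv P := Subtype.ext ((I.e _).symm_apply_apply _)
  right_inv P := Subtype.ext ((I.e _).apply_symm_apply _)
  map_add' P Q := Subtype.ext (map_add (I.e _) _ _)

include I in
theorem card_quot (n : ℕ) (K : Type) [Field K] [Algebra F K] :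
    Nat.card (QuotK H' K n) = Nat.card (QuotK H K n) := by
  refine (Nat.card_congr (QuotientAddGroup.congr _ _ (I.kE K) ?_).toEquiv).symm
  ext P
  constructor
  · rintro ⟨_, ⟨Q, rfl⟩, rfl⟩
    exact ⟨I.kE K Q, (map_nsmul (I.kE K) n Q).symm⟩
  · rintro ⟨Q, rfl⟩
    refine ⟨n • (I.kE K).symm Q, ⟨(I.kE K).symm Q, rfl⟩, ?_⟩
    change I.kE K (n • (I.kE K).symm Q) = n • Q
    rw [map_nsmul, AddEquiv.apply_symm_apply]

end field

section number

variable {F : Type} [Field F] [NumberField F] {H H' : HP F} (I : JI H H')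

lemma shaCocycle {f : GF F → Jac H (AlgebraicClosure F)} (hf : IsShaCocycle H f) :
    IsShaCocycle H' (I.E f) :=
  ⟨I.cocycle hf.1, fun v => I.locTriv (hf.2.1 v), fun v => I.locTriv (hf.2.2 v)⟩

/-- an isomorphism that maps the subgroup `A` to `A'` gives an isomorphism of `A` and `A'` -/
noncomputable def subE {G G' : Type} [AddCommGroup G] [AddCommGroup G'] (e : G ≃+ G') (A : AddSubgroup G)
    (A' : AddSubgroup G') (h : ∀ x ∈ A, e x ∈ A') (h' : ∀ x ∈ A', e.symm x ∈ A) : A ≃+ A' where
  toFun x := ⟨e x.1, h _ x.2⟩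
  invFun x := ⟨e.symm x.1, h' _ x.2⟩
  left_inv x := Subtype.ext (e.symm_apply_apply _)
  right_inv x := Subtype.ext (e.apply_symm_apply _)
  map_add' x y := Subtype.ext (map_add e _ _)

/-- and of the quotients -/
noncomputable def quoE {G G' : Type} [AddCommGroup G] [AddCommGroup G'] (e : G ≃+ G') (A B : AddSubgroup G)
    (A' B' : AddSubgroup G') (h : ∀ x ∈ A, e x ∈ A') (h' : ∀ x ∈ A', e.symm x ∈ A)
    (k : ∀ x ∈ B, e x ∈ B') (k' : ∀ x ∈ B', e.symm x ∈ B) :
    (A ⧸ B.addSubgroupOf A) ≃+ (A' ⧸ B'.addSubgroupOf A') :=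
  QuotientAddGroup.congr _ _ (subE e A A' h h') (by
    ext x
    constructor
    · rintro ⟨y, hy, rfl⟩
      exact k _ hy
    · intro hx
      exact ⟨(subE e A A' h h').symm x, k' _ hx, AddEquiv.apply_symm_apply _ _⟩)

/-- the isomorphism of the Tate-Shafarevich groups -/
noncomputable def shaE : Sha H ≃+ Sha H' :=
  quoE I.E (shaCocycles H) (coboundaries H) (shaCocycles H') (coboundaries H')
    (fun _ h => I.shaCocycle h) (fun _ h => I.symm.shaCocycle h)
    (fun _ h => I.coboundary h) (fun _ h => I.symm.coboundary h)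

include I in
theorem card_sha (n : ℕ) : Nat.card (ShaTorsion H' n) = Nat.card (ShaTorsion H n) := by
  refine (Nat.card_congr (I.shaE.toEquiv.subtypeEquiv fun c => ?_)).symm
  change n • c = 0 ↔ n • I.shaE c = 0
  rw [← map_nsmul, map_eq_zero_iff _ I.shaE.injective]

lemma mem_sel {f : GF F → Jac H (AlgebraicClosure F)} (hf : f ∈ selJ H) : I.E f ∈ selJ H' := by
  refine ⟨I.shaCocycle hf.1, fun σ => ?_⟩
  rw [E_apply, ← map_add, hf.2 σ, map_zero]

lemma mem_cob {f : GF F → Jac H (AlgebraicClosure F)} (hf : f ∈ cobJ H) : I.E f ∈ cobJ H' := by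
  obtain ⟨P, hP, h⟩ := hf
  exact ⟨I.e _ P, by rw [← map_add, hP, map_zero], fun σ => by rw [E_apply, h, map_sub, act_e]⟩

include I in
theorem card_sel : Nat.card (Sel2J H') = Nat.card (Sel2J H) :=
  (Nat.card_congr (quoE I.E (selJ H) (cobJ H) (selJ H') (cobJ H')
    (fun _ h => I.mem_sel h) (fun _ h => I.symm.mem_sel h)
    (fun _ h => I.mem_cob h) (fun _ h => I.symm.mem_cob h)).toEquiv).symm

end number

end JI

/-! ### the isomorphism of the curves -/

section curve

variable {F : Type} [Field F]

lemma pol_twist (H : HP F) (D : F) (L : Type) [Field L] [Algebra F L] :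
    pol (H.twist D) L = (pol H L).scaleRoots (algebraMap F L D) := by
  unfold pol HP.twist
  rw [Polynomial.map_scaleRoots]
  rw [H.monic.leadingCoeff, map_one]
  exact one_ne_zero

lemma natDegree_pol (H : HP F) (L : Type) [Field L] [Algebra F L] :
    (pol H L).natDegree = H.pol.natDegree := by
  unfold pol
  exact H.monic.natDegree_map _

/-- the substitution `x ↦ t x` -/
lemma comp_mul {L : Type} [Field L] (t : L) (p q : L[X]) :
    (p * q).comp (C t * X) = p.comp (C t * X) * q.comp (C t * X) := Polynomial.mul_comp _ _ _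

lemma comp_inv {L : Type} [Field L] (t : L) (ht : t ≠ 0) (p : L[X]) :
    (p.comp (C t * X)).comp (C t⁻¹ * X) = p := by
  rw [Polynomial.comp_assoc]
  have h : (C t * X : L[X]).comp (C t⁻¹ * X) = X := by
    rw [Polynomial.mul_comp, Polynomial.C_comp, Polynomial.X_comp, ← mul_assoc, ← C_mul,
      mul_inv_cancel₀ ht, C_1, one_mul]
  rw [h, Polynomial.comp_X]

lemma comp_scale {L : Type} [Field L] (t : L) (p : L[X]) :
    (p.scaleRoots t).comp (C t * X) = C (t ^ p.natDegree) * p := by
  rw [Polynomial.comp, Polynomial.scaleRoots_eval₂_mul, Polynomial.eval₂_C_X, C_pow]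

/-- the isomorphism of the coordinate rings, `X ↦ s² x`, `Y ↦ s^n y` -/
noncomputable def crE (H : HP F) (s : F) (hs : s ≠ 0) (L : Type) [Field L] [Algebra F L] :
    CoordRing (H.twist (s ^ 2)) L ≃+* CoordRing H L where
  toFun z := (⟨(QuadraticAlgebra.re z).comp (C (algebraMap F L (s ^ 2)) * X),
    C (algebraMap F L (s ^ H.pol.natDegree)) * (QuadraticAlgebra.im z).comp (C (algebraMap F L (s ^ 2)) * X)⟩ :
      QuadraticAlgebra L[X] (pol H L) 0)
  invFun z := (⟨(QuadraticAlgebra.re z).comp (C (algebraMap F L (s ^ 2))⁻¹ * X),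
    C (algebraMap F L (s ^ H.pol.natDegree))⁻¹ *
      (QuadraticAlgebra.im z).comp (C (algebraMap F L (s ^ 2))⁻¹ * X)⟩ :
      QuadraticAlgebra L[X] (pol (H.twist (s ^ 2)) L) 0)
  left_inv z := by
    have h2 : algebraMap F L (s ^ 2) ≠ 0 := by
      rw [Ne, map_eq_zero]
      exact pow_ne_zero _ hs
    have hn : algebraMap F L (s ^ H.pol.natDegree) ≠ 0 := by
      rw [Ne, map_eq_zero]
      exact pow_ne_zero _ hs
    refine QuadraticAlgebra.ext ?_ ?_
    · exact comp_inv _ h2 _
    · change C (algebraMap F L (s ^ H.pol.natDegree))⁻¹ *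
        (C (algebraMap F L (s ^ H.pol.natDegree)) *
          (QuadraticAlgebra.im z).comp (C (algebraMap F L (s ^ 2)) * X)).comp
            (C (algebraMap F L (s ^ 2))⁻¹ * X) = _
      rw [comp_mul, comp_inv _ h2, Polynomial.C_comp, ← mul_assoc, ← C_mul, inv_mul_cancel₀ hn, C_1,
        one_mul]
  right_inv z := by
    have h2 : algebraMap F L (s ^ 2) ≠ 0 := by
      rw [Ne, map_eq_zero]
      exact pow_ne_zero _ hs
    have hn : algebraMap F L (s ^ H.pol.natDegree) ≠ 0 := by
      rw [Ne, map_eq_zero]
      exact pow_ne_zero _ hs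
    have h2' := inv_ne_zero h2
    refine QuadraticAlgebra.ext ?_ ?_
    · have h := comp_inv _ h2' (QuadraticAlgebra.re z)
      rw [inv_inv] at h
      exact h
    · change C (algebraMap F L (s ^ H.pol.natDegree)) *
        (C (algebraMap F L (s ^ H.pol.natDegree))⁻¹ *
          (QuadraticAlgebra.im z).comp (C (algebraMap F L (s ^ 2))⁻¹ * X)).comp
            (C (algebraMap F L (s ^ 2)) * X) = _
      have h := comp_inv _ h2' (QuadraticAlgebra.im z)
      rw [inv_inv] at h
      rw [comp_mul, h, Polynomial.C_comp, ← mul_assoc, ← C_mul, mul_inv_cancel₀ hn, C_1, one_mul]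
  map_mul' z w := by
    have hp : (pol (H.twist (s ^ 2)) L).comp (C (algebraMap F L (s ^ 2)) * X) =
        C (algebraMap F L (s ^ H.pol.natDegree)) * C (algebraMap F L (s ^ H.pol.natDegree)) * pol H L := by
      rw [pol_twist, comp_scale, natDegree_pol, ← C_mul, ← map_mul, ← map_pow, ← pow_mul, ← pow_add]
      congr 3
      ring
    have hre : QuadraticAlgebra.re (z * w) = QuadraticAlgebra.re z * QuadraticAlgebra.re w +
        pol (H.twist (s ^ 2)) L * QuadraticAlgebra.im z * QuadraticAlgebra.im w :=
      @QuadraticAlgebra.re_mul L[X] (pol (H.twist (s ^ 2)) L) 0 _ _ z w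
    have him : QuadraticAlgebra.im (z * w) = QuadraticAlgebra.re z * QuadraticAlgebra.im w +
        QuadraticAlgebra.im z * QuadraticAlgebra.re w + 0 * QuadraticAlgebra.im z * QuadraticAlgebra.im w :=
      @QuadraticAlgebra.im_mul L[X] (pol (H.twist (s ^ 2)) L) 0 _ _ z w
    refine QuadraticAlgebra.ext ?_ ?_
    · rw [hre, Polynomial.add_comp, comp_mul, comp_mul, comp_mul, hp]
      refine Eq.trans ?_ (@QuadraticAlgebra.re_mul L[X] (pol H L) 0 _ _ _ _).symm
      ring
    · rw [him, zero_mul, zero_mul, add_zero, Polynomial.add_comp, comp_mul, comp_mul]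
      refine Eq.trans ?_ (@QuadraticAlgebra.im_mul L[X] (pol H L) 0 _ _ _ _).symm
      ring
  map_add' z w := by
    refine QuadraticAlgebra.ext ?_ ?_
    · exact Polynomial.add_comp
    · change C _ * (QuadraticAlgebra.im z + QuadraticAlgebra.im w).comp _ = _
      rw [Polynomial.add_comp, mul_add]
      rfl

lemma crE_nat (H : HP F) (s : F) (hs : s ≠ 0) (L M : Type) [Field L] [Algebra F L] [Field M] [Algebra F M]
    (φ : L →ₐ[F] M) : (crE H s hs M).toRingHom.comp (ringMap (H.twist (s ^ 2)) φ) =
      (ringMap H φ).comp (crE H s hs L).toRingHom := by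
  ext1 z
  refine QuadraticAlgebra.ext ?_ ?_
  · change ((QuadraticAlgebra.re z).map (φ : L →+* M)).comp (C (algebraMap F M (s ^ 2)) * X) =
      ((QuadraticAlgebra.re z).comp (C (algebraMap F L (s ^ 2)) * X)).map (φ : L →+* M)
    rw [Polynomial.map_comp, Polynomial.map_mul, Polynomial.map_C, Polynomial.map_X]
    congr 3
    exact (φ.commutes _).symm
  · change C (algebraMap F M (s ^ H.pol.natDegree)) *
        ((QuadraticAlgebra.im z).map (φ : L →+* M)).comp (C (algebraMap F M (s ^ 2)) * X) =
      (C (algebraMap F L (s ^ H.pol.natDegree)) *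
        (QuadraticAlgebra.im z).comp (C (algebraMap F L (s ^ 2)) * X)).map (φ : L →+* M)
    rw [Polynomial.map_mul, Polynomial.map_comp, Polynomial.map_mul, Polynomial.map_C, Polynomial.map_C,
      Polynomial.map_X]
    congr 1
    · congr 1
      exact (φ.commutes _).symm
    · congr 3
      exact (φ.commutes _).symm

lemma pointMap_eq (H : HP F) {L M : Type} [Field L] [Algebra F L] [Field M] [Algebra F M] (φ : L →ₐ[F] M)
    (P : ClassGroup (CoordRing H L)) : pointMap H φ P = cm (ringMap H φ) (ringMap_inj H φ) P := rfl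

/-- the isomorphism of the Jacobians -/
noncomputable def twI (H : HP F) (s : F) (hs : s ≠ 0) : JI (H.twist (s ^ 2)) H where
  e L _ _ := AddEquiv.mk (cmE (crE H s hs L)).toEquiv (fun P Q => (cmE (crE H s hs L)).map_mul P Q)
  nat L M _ _ _ _ φ P := by
    change cm (crE H s hs M).toRingHom (crE H s hs M).injective
        (cm (ringMap (H.twist (s ^ 2)) φ) (ringMap_inj _ φ) P) =
      cm (ringMap H φ) (ringMap_inj H φ) (cm (crE H s hs L).toRingHom (crE H s hs L).injective P)
    rw [cm_cm, cm_cm]
    exact cm_congr (crE_nat H s hs L M φ) _ _ P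

end curve

/-- twists by squares do not change the 2-Selmer group, `J(F)/2J(F)` and `Ш[2]` -/
theorem scj : S_SCJ := by
  intro F _ _ H s hs
  have I := (twI H s hs).symm
  exact ⟨I.card_sel, I.card_quot 2 F, I.card_sha 2⟩

end Pool.Agent.Q237.ESJ
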